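import Mathlib
import Pool.Agent.Helper4.RainbowDefs
import Pool.Agent.Helper4.RainbowMain

namespace Pool.Agent.Results.MP_8b2dc5_pr.RainbowTreesNotMonotone

open Pool.Agent.Helper4.Rainbow

theorem num1 : 2717 * 2809 ^ 2809 < 1000 * 2810 ^ 2809 := by
  decide +kernel

theorem num2 : 2810 * 2809 * 2 ^ 52 * 1000 ^ 53 ≤ 2717 ^ 53 := by
  decide +kernel

theorem num3 (q : ℕ) (hq : q = 2809 * 53) :
    (2809 + 1) * 2809 * 2 ^ 52 * 2809 ^ q < (2809 + 1) ^ q := by
  have key : ∀ A B : ℕ, 2717 * A < 1000 * B →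
      2810 * 2809 * 2 ^ 52 * A ^ 53 < B ^ 53 := by
    intro A B h
    have h1 : (2717 * A) ^ 53 < (1000 * B) ^ 53 := Nat.pow_lt_pow_left h (by norm_num)
    rw [mul_pow, mul_pow] at h1
    have h2 : 2810 * 2809 * 2 ^ 52 * 1000 ^ 53 * A ^ 53 ≤ 2717 ^ 53 * A ^ 53 :=
      Nat.mul_le_mul_right _ num2
    have h3 : 1000 ^ 53 * (2810 * 2809 * 2 ^ 52 * A ^ 53) < 1000 ^ 53 * B ^ 53 := by
      calc 1000 ^ 53 * (2810 * 2809 * 2 ^ 52 * A ^ 53)
          = 2810 * 2809 * 2 ^ 52 * 1000 ^ 53 * A ^ 53 := by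
            rw [mul_comm (1000 ^ 53), mul_assoc _ (A ^ 53), mul_comm (A ^ 53), ← mul_assoc]
        _ ≤ 2717 ^ 53 * A ^ 53 := h2
        _ < 1000 ^ 53 * B ^ 53 := h1
    exact lt_of_mul_lt_mul_left h3 (Nat.zero_le _)
  have h := key _ _ num1
  rw [← pow_mul, ← pow_mul, ← hq] at h
  exact h

/-- There is a finite simple graph `G` and a threshold `t` such that the number of rainbow trees
of order `5` is at least `t` with larger probability under a uniform random `2809`-colouring of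
the edges than under a uniform random `2810`-colouring. -/
theorem result : ∃ (V : Type) (_ : Finite V) (G : SimpleGraph V) (t : ℝ),
    tailProb G 2810 5 t < tailProb G 2809 5 t := by
  have : Fact (Nat.Prime 53) := ⟨by norm_num⟩
  have hc : Fintype.card (ZMod 53) = 53 := ZMod.card 53
  refine ⟨Bool × ZMod 53 × ZMod 53, inferInstance, planeGraph (ZMod 53), _,
    tailProb_lt (F := ZMod 53) 2809 (Fintype.card (ZMod 53) ^ 3) ?_ rfl (by norm_num) ?_⟩
  · rw [hc]; norm_num
  · have h := num3 (Fintype.card (ZMod 53) ^ 3) (by rw [hc]; norm_num)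
    rw [show Fintype.card (ZMod 53) - 1 = 52 by rw [hc]]
    exact h

end Pool.Agent.Results.MP_8b2dc5_pr.RainbowTreesNotMonotone
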